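import Pool.Agent.Mg.S11659.Gadf981

set_option autoImplicit false

namespace Pool.Agent.Results.MP_d347ac_co.SubsetBound

open Pool.Agent.MP_d347ac_co Pool.Agent.MP_d347ac_co.H31

/-- `p` is a crossing-free straight-line drawing of `G`: distinct points, no edge passes through
a vertex other than its endpoints, two different edges meet only in a common endpoint. -/
def IsDrawing {n : ℕ} (G : SimpleGraph (Fin n)) (p : Fin n → ℝ × ℝ) : Prop :=
  Function.Injective p ∧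
    (∀ u v w : Fin n, G.Adj u v → w ≠ u → w ≠ v → p w ∉ segment ℝ (p u) (p v)) ∧
    (∀ u v x y : Fin n, G.Adj u v → G.Adj x y → s(u, v) ≠ s(x, y) →
      ∀ z ∈ segment ℝ (p u) (p v), z ∈ segment ℝ (p x) (p y) →
        ∃ w : Fin n, (w = u ∨ w = v) ∧ (w = x ∨ w = y) ∧ z = p w)

theorem drawing_of {n K : ℕ} {G : SimpleGraph (Fin n)} {d : Dat (Fin K)} {ord ctr : List (Fin K)}
    {φ : Fin n → Fin K} (hφ : Function.Injective φ) (hmem : ∀ v, φ v ∈ ord)
    (hadj : ∀ u v, G.Adj u v → φ u ∈ d.N (φ v) ∨ φ v ∈ d.N (φ u)) {h x : Fin K → ℝ}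
    (I : PlaneInv d ord ctr h x) : IsDrawing G (fun v => pos h x (φ v)) := by
  have hE : ∀ u v, G.Adj u v → Ed d ord (φ u) (φ v) ∨ Ed d ord (φ v) (φ u) := by
    intro u v huv
    rcases hadj u v huv with q | q
    · exact Or.inl (Or.inl ⟨hmem v, q⟩)
    · exact Or.inr (Or.inl ⟨hmem u, q⟩)
  refine ⟨?_, ?_, ?_⟩
  · intro u v e
    exact hφ (I.inj _ _ (Or.inl (hmem u)) (Or.inl (hmem v)) e)
  · intro u v w huv h1 h2
    rcases hE u v huv with e | e
    · exact I.off _ _ _ e (Or.inl (hmem w)) (hφ.ne h1) (hφ.ne h2)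
    · rw [segment_symm]
      exact I.off _ _ _ e (Or.inl (hmem w)) (hφ.ne h2) (hφ.ne h1)
  · have key : ∀ u v u' v', Ed d ord (φ u) (φ v) → Ed d ord (φ u') (φ v') → s(u, v) ≠ s(u', v') →
        ∀ z ∈ segment ℝ (pos h x (φ u)) (pos h x (φ v)),
          z ∈ segment ℝ (pos h x (φ u')) (pos h x (φ v')) →
          ∃ w : Fin n, (w = u ∨ w = v) ∧ (w = u' ∨ w = v') ∧ z = pos h x (φ w) := by
      intro u v u' v' e e' hne z hz hz'
      obtain ⟨w, q1, q2, q3⟩ := I.cross _ _ _ _ e e' (by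
        intro hs
        apply hne
        rcases Sym2.eq_iff.1 hs with ⟨r1, r2⟩ | ⟨r1, r2⟩
        · rw [hφ r1, hφ r2]
        · rw [hφ r1, hφ r2, Sym2.eq_swap]) z hz hz'
      rcases q1 with rfl | rfl
      · exact ⟨u, Or.inl rfl, q2.imp (fun r => hφ r) (fun r => hφ r), q3⟩
      · exact ⟨v, Or.inr rfl, q2.imp (fun r => hφ r) (fun r => hφ r), q3⟩
    intro u v u' v' huv huv' hne z hz hz'
    rcases hE u v huv with e | e <;> rcases hE u' v' huv' with e' | e'
    · exact key u v u' v' e e' hne z hz hz'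
    · obtain ⟨w, q1, q2, q3⟩ := key u v v' u' e e' (by rwa [Sym2.eq_swap (a := v')]) z hz
        (by rwa [segment_symm])
      exact ⟨w, q1, q2.symm, q3⟩
    · obtain ⟨w, q1, q2, q3⟩ := key v u u' v' e e' (by rwa [Sym2.eq_swap (a := v)]) z
        (by rwa [segment_symm]) hz'
      exact ⟨w, q1.symm, q2, q3⟩
    · obtain ⟨w, q1, q2, q3⟩ := key v u v' u' e e'
        (by rwa [Sym2.eq_swap (a := v), Sym2.eq_swap (a := v')]) z
        (by rwa [segment_symm]) (by rwa [segment_symm])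
      exact ⟨w, q1.symm, q2.symm, q3⟩

/-- A graph with a crossing-free straight-line drawing has, for every set `S` of at most `t ^ 3`
vertices, such a drawing in which `S` lies on at most `4 t ^ 2` lines. -/
theorem result (n : ℕ) (G : SimpleGraph (Fin n)) (hG : ∃ p, IsDrawing G p) (S : Finset (Fin n))
    (t : ℕ) (ht : S.card ≤ t ^ 3) :
    ∃ q, IsDrawing G q ∧ ∃ k : ℕ, k ≤ 4 * t ^ 2 ∧ ∃ a b c : Fin k → ℝ,
      (∀ i, a i ≠ 0 ∨ b i ≠ 0) ∧ ∀ v ∈ S, ∃ i : Fin k, a i * (q v).1 + b i * (q v).2 = c i := by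
  classical
  obtain ⟨p, hp⟩ := hG
  rcases Nat.eq_zero_or_pos t with rfl | t0
  · have : S = ∅ := Finset.card_eq_zero.1 (by simpa using ht)
    subst this
    exact ⟨p, hp, 0, by simp, Fin.elim0, Fin.elim0, Fin.elim0, fun i => i.elim0, by simp⟩
  obtain ⟨K, d, ord, ctr, φ, hB, hφ, hmem, hadj⟩ := partA n G p hp
  obtain ⟨h, x, l, k, I, a1, a2, Ls, b1, b2, b3⟩ := partB hB (S.image φ)
    (by intro y hy; obtain ⟨v, -, rfl⟩ := Finset.mem_image.1 hy; exact hmem v) (t ^ 2 - 1) t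
  rw [Finset.card_image_of_injective _ hφ] at a1 a2
  have t2 : 0 < t ^ 2 := by positivity
  rw [Nat.sub_add_cancel t2] at a1 b1
  have hl : l ≤ t := by
    refine Nat.le_of_mul_le_mul_right (c := t ^ 2) ?_ t2
    calc l * t ^ 2 ≤ t ^ 3 := a1.trans ht
      _ = t * t ^ 2 := by ring
  have hk : k ≤ 3 * t ^ 2 := by
    refine Nat.le_of_mul_le_mul_left (c := t) ?_ t0
    have := Nat.mul_le_mul_right (t * t) hl
    calc t * k ≤ l * (t * t) + 2 * S.card := a2
      _ ≤ t * (t * t) + 2 * t ^ 3 := by omega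
      _ = t * (3 * t ^ 2) := by ring
  refine ⟨fun v => pos h x (φ v), drawing_of hφ hmem hadj I, Ls.card, by omega,
    fun i => (Ls.equivFin.symm i).1.1, fun i => (Ls.equivFin.symm i).1.2.1,
    fun i => (Ls.equivFin.symm i).1.2.2, fun i => b2 _ (Ls.equivFin.symm i).2, ?_⟩
  intro v hv
  obtain ⟨L, hL, e⟩ := b3 (φ v) (Finset.mem_image_of_mem _ hv)
  exact ⟨Ls.equivFin ⟨L, hL⟩, by simpa [pos] using e⟩

end Pool.Agent.Results.MP_d347ac_co.SubsetBound
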